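import Pool.Agent.R216.VPD.Main

/-!
# MP_8eef66_an: nonnegative measures with integrable nonlinear potential are strongly dense

Q1 (Véron), full positive answer.

For every bounded open set `Ω` of `ℝ^N`, `N ≥ 2`, and every continuous nondecreasing `g` with
`g(t) t ≥ 0`, every nonnegative good measure `μ` on `Ω` is the limit, in the total variation norm,
of measures `ν_n ∈ V_+`; moreover `0 ≤ ν_n ≤ μ`.

The definitions (`Pool.Agent.R216.VPD.Defs`):

* `IsTest Ω ζ`: `ζ` is a smooth function on `ℝ^N` vanishing on the boundary of `Ω` (for a smooth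
  bounded `Ω` the restrictions of these functions to the closure of `Ω` are exactly the smooth
  functions on the closure of `Ω` vanishing on the boundary);
* `SolvesLinear Ω μ u`: `u ∈ L^1(Ω)` and `-∫_Ω u Δζ = ∫_Ω ζ dμ` for all test functions;
* `SolvesNonlinear g Ω μ u`: `u, g(u) ∈ L^1(Ω)` and `-∫_Ω u Δζ + ∫_Ω g(u) ζ = ∫_Ω ζ dμ`;
* `GoodNonneg g Ω μ`: `μ` is a finite nonnegative Borel measure on `Ω` for which the nonlinear
  problem has a solution;
* `VPlus g Ω μ`: `μ` is a finite nonnegative Borel measure on `Ω` whose potential `u` (solution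
  of the linear problem) satisfies `g(u) ∈ L^1(Ω)`.

Idea of the proof.  Let `σ` be the part of `μ` singular to Lebesgue measure and `f = g(u)^+`.
By the Besicovitch differentiation theorem there is a compact Lebesgue null set `K ⊆ Ω` carrying
almost all of `σ` on which `f(B(x,r)) ≤ ε σ(B(x,2r))` for all small `r`.  Near `K` the solution
satisfies `c u ≥ P_σ - P_f - C` (`P` the Newtonian potential), and for `x` at distance `d` from
`K` the bound on `f` shows that `P_f` is a small multiple of `P_σ` on at least half of the ball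
`B(x, η d)`, so that `θ P_{σ|K}(x) + C' ≤ c u(z)` for half of the `z ∈ B(x, η d)`, as soon as
`P_{σ|K}(x)` is large.  As `g` is nondecreasing, `g` of the potential of
`θ σ|K + min(h,k) dx` at `x` is at most a constant plus twice the average of `g(u)^+` over
`B(x, η d)`, and the integral over `x` of these averages is at most `C ∫ g(u)^+`.
The existence of the potential, with its upper bound by the Newtonian potential, is proved with
the Hahn-Banach theorem.
-/

namespace Pool.Agent.Results.MP_8eef66_an.VPlusStronglyDense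

open MeasureTheory Set Filter Topology
open Pool.Agent.R216.VPD

theorem tv_le {α : Type*} [MeasurableSpace α] {μ ν : Measure α} [IsFiniteMeasure μ]
    [IsFiniteMeasure ν] (h : ν ≤ μ) {c : ENNReal} (hc : μ univ ≤ ν univ + c) :
    (μ.toSignedMeasure - ν.toSignedMeasure).totalVariation univ ≤ c := by
  set ρ := μ - ν with hρ
  have hadd : ρ + ν = μ := Measure.sub_add_cancel_of_le h
  have hρfin : IsFiniteMeasure ρ := isFiniteMeasure_of_le μ (by
    rw [← hadd]; exact Measure.le_add_right le_rfl)
  let j : JordanDecomposition α :=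
    { posPart := ρ
      negPart := 0
      posPart_finite := hρfin
      negPart_finite := inferInstance
      mutuallySingular := Measure.MutuallySingular.zero_right }
  have hj : μ.toSignedMeasure - ν.toSignedMeasure = j.toSignedMeasure := by
    have h1 : μ.toSignedMeasure = ρ.toSignedMeasure + ν.toSignedMeasure := by
      rw [← Measure.toSignedMeasure_add]
      congr 1
      exact hadd.symm
    rw [h1, add_sub_cancel_right]
    unfold JordanDecomposition.toSignedMeasure
    simp [j]
  have h2 := SignedMeasure.toJordanDecomposition_eq hj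
  unfold SignedMeasure.totalVariation
  rw [h2]
  simp only [j, add_zero]
  have h3 : ρ univ + ν univ = μ univ := by
    rw [← Measure.add_apply, hadd]
  rw [← h3, add_comm (ν univ) c] at hc
  exact (ENNReal.add_le_add_iff_right (measure_ne_top ν univ)).1 hc

/-- **`V_+` is strongly dense in the set of nonnegative good measures.** -/
theorem result {N : ℕ} (hN : 2 ≤ N) {Ω : Set (EuclideanSpace ℝ (Fin N))} (hΩ : IsOpen Ω)
    (hb : Bornology.IsBounded Ω) {g : ℝ → ℝ} (hgc : Continuous g) (hgm : Monotone g)
    (hgs : ∀ t, 0 ≤ g t * t) (μ : FiniteMeasure (EuclideanSpace ℝ (Fin N)))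
    (hμ : GoodNonneg g Ω (μ : Measure (EuclideanSpace ℝ (Fin N)))) :
    ∃ ν : ℕ → FiniteMeasure (EuclideanSpace ℝ (Fin N)),
      (∀ n, VPlus g Ω (ν n : Measure (EuclideanSpace ℝ (Fin N)))) ∧
      (∀ n, (ν n : Measure (EuclideanSpace ℝ (Fin N))) ≤ μ) ∧
      Tendsto (fun n =>
        ((μ : Measure (EuclideanSpace ℝ (Fin N))).toSignedMeasure
          - (ν n : Measure (EuclideanSpace ℝ (Fin N))).toSignedMeasure).totalVariation univ)
        atTop (𝓝 0) := by
  obtain ⟨_, hμΩ, u, hu⟩ := hμ
  have hstep : ∀ n : ℕ, ∃ ν : FiniteMeasure (EuclideanSpace ℝ (Fin N)),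
      VPlus g Ω (ν : Measure (EuclideanSpace ℝ (Fin N))) ∧
      (ν : Measure (EuclideanSpace ℝ (Fin N))) ≤ μ ∧
      ((μ : Measure (EuclideanSpace ℝ (Fin N))).toSignedMeasure
          - (ν : Measure (EuclideanSpace ℝ (Fin N))).toSignedMeasure).totalVariation univ
        ≤ ENNReal.ofReal (1 / ((n : ℝ) + 2)) * (μ : Measure (EuclideanSpace ℝ (Fin N))) univ
          + ENNReal.ofReal (1 / ((n : ℝ) + 2)) + ENNReal.ofReal (1 / ((n : ℝ) + 2)) := by
    intro n
    have hn : (0 : ℝ) ≤ n := Nat.cast_nonneg n
    have h1 : 1 / ((n : ℝ) + 2) < 1 := by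
      rw [div_lt_one (by positivity)]; linarith
    have h0 : 0 < 1 / ((n : ℝ) + 2) := by positivity
    obtain ⟨ν, hν1, hν2, hν3⟩ := step (by omega) hΩ hb hgc hgm hgs
      (μ : Measure (EuclideanSpace ℝ (Fin N))) hμΩ hu (θ := 1 - 1 / ((n : ℝ) + 2))
      (by linarith) (by linarith) (ε₀ := ENNReal.ofReal (1 / ((n : ℝ) + 2)))
      (by simpa using (by positivity : (0 : ℝ) < (n : ℝ) + 2))
    have hfin := hν2.1
    refine ⟨⟨ν, hfin⟩, hν2, hν1, ?_⟩
    refine tv_le hν1 ?_
    rw [sub_sub_cancel] at hν3
    refine hν3.trans (le_of_eq ?_)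
    ring
  choose ν h1 h2 h3 using hstep
  refine ⟨ν, h1, h2, ?_⟩
  refine tendsto_of_tendsto_of_tendsto_of_le_of_le tendsto_const_nhds ?_ (fun n => by simp) h3
  have hlim : Tendsto (fun n : ℕ => ENNReal.ofReal (1 / ((n : ℝ) + 2))) atTop (𝓝 0) := by
    have h4 : Tendsto (fun n : ℕ => 1 / ((n : ℝ) + 2)) atTop (𝓝 0) := by
      have h5 : Tendsto (fun n : ℕ => (n : ℝ) + 2) atTop atTop :=
        tendsto_atTop_add_const_right _ _ tendsto_natCast_atTop_atTop
      exact h5.inv_tendsto_atTop.congr fun n => by simp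
    have h8 := (ENNReal.continuous_ofReal.tendsto 0).comp h4
    rw [ENNReal.ofReal_zero] at h8
    exact h8
  have h6 : Tendsto (fun n : ℕ => ENNReal.ofReal (1 / ((n : ℝ) + 2))
      * (μ : Measure (EuclideanSpace ℝ (Fin N))) univ) atTop
      (𝓝 (0 * (μ : Measure (EuclideanSpace ℝ (Fin N))) univ)) :=
    ENNReal.Tendsto.mul_const hlim (Or.inr (measure_ne_top _ _))
  rw [zero_mul] at h6
  have h7 := (h6.add hlim).add hlim
  simpa using h7

end Pool.Agent.Results.MP_8eef66_an.VPlusStronglyDense
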